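import Pool.Agent.Helper68.QC.St6

/-!
# PART M of project QD (MP_d112a4_gt), module FVM: first variation of the multiplier
-/

set_option autoImplicit false

open Pool.Agent.Helper68.QC
open MeasureTheory Set Filter Topology Complex
open scoped ContDiff ComplexConjugate ENNReal

namespace Pool.Agent.Helper98.QCM

private theorem fvm_meas (l : ℂ) : MeasurableSet (ann l) := by
  have h : ann l = (fun ξ : ℂ => ‖ξ‖) ⁻¹' (Set.Ico 1 (Real.exp l.re)) := by
    ext ξ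
    rfl
  rw [h]
  exact measurable_norm measurableSet_Ico

private theorem fvm_sub (l : ℂ) : ann l ⊆ Metric.closedBall 0 (Real.exp l.re) := by
  intro ξ hξ
  rw [mem_closedBall_zero_iff]
  exact hξ.2.le

private theorem fvm_fin (l : ℂ) : volume (ann l) < ⊤ :=
  (measure_mono (fvm_sub l)).trans_lt (isCompact_closedBall _ _).measure_lt_top

private theorem fvm_hint (l : ℂ) : IntegrableOn (fun ξ : ℂ => ‖ξ⁻¹‖ ^ 2) (ann l) := by
  have : IsFiniteMeasure (volume.restrict (ann l)) := ⟨by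
    rw [Measure.restrict_apply_univ]; exact fvm_fin l⟩
  refine Integrable.of_bound (C := 1) ?_ ?_
  · exact ((measurable_inv.norm).pow_const 2).aestronglyMeasurable
  · rw [ae_restrict_iff' (fvm_meas l)]
    refine ae_of_all _ fun ξ hξ => ?_
    have h1 : (1 : ℝ) ≤ ‖ξ‖ := hξ.1
    rw [Real.norm_of_nonneg (by positivity), norm_inv]
    exact pow_le_one₀ (by positivity) (inv_le_one_of_one_le₀ h1)

private theorem fvm_I0 (l : ℂ) (hl : 0 < l.re) :
    ∫ ξ in ann l, ‖ξ⁻¹‖ ^ 2 = 2 * Real.pi * l.re := by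
  set R := Real.exp l.re with hR
  have hR1 : 1 < R := Real.one_lt_exp_iff.2 hl
  rw [← integral_indicator (fvm_meas l), ← Complex.integral_comp_polarCoord_symm]
  have e1 : ∫ p in polarCoord.target, p.1 • (ann l).indicator (fun ξ : ℂ => ‖ξ⁻¹‖ ^ 2)
        (Complex.polarCoord.symm p) =
      ∫ p in Ioi (0 : ℝ) ×ˢ Ioo (-Real.pi) Real.pi,
        ((Ico 1 R).indicator (fun r : ℝ => r⁻¹) p.1) * (1 : ℝ) := by
    rw [polarCoord_target]
    refine setIntegral_congr_fun (measurableSet_Ioi.prod measurableSet_Ioo) ?_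
    intro p hp
    have hp1 : 0 < p.1 := hp.1
    have hn : ‖Complex.polarCoord.symm p‖ = p.1 := by
      rw [Complex.norm_polarCoord_symm, abs_of_pos hp1]
    simp only [smul_eq_mul, mul_one]
    by_cases h : p.1 ∈ Ico 1 R
    · have h2 : Complex.polarCoord.symm p ∈ ann l := by
        refine ⟨?_, ?_⟩
        · rw [hn]; exact h.1
        · rw [hn]; exact h.2
      rw [indicator_of_mem h, indicator_of_mem h2, norm_inv, hn]
      field_simp
    · have h2 : Complex.polarCoord.symm p ∉ ann l := by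
        intro h3
        apply h
        have h4 := h3.1
        have h5 := h3.2
        rw [hn] at h4 h5
        exact ⟨h4, h5⟩
      rw [indicator_of_notMem h, indicator_of_notMem h2, mul_zero]
  rw [e1, Measure.volume_eq_prod, setIntegral_prod_mul (fun r : ℝ => (Ico 1 R).indicator (fun r : ℝ => r⁻¹) r)
    (fun _ : ℝ => (1 : ℝ))]
  have e2 : ∫ r in Ioi (0 : ℝ), (Ico 1 R).indicator (fun r : ℝ => r⁻¹) r = l.re := by
    rw [integral_indicator measurableSet_Ico, Measure.restrict_restrict measurableSet_Ico]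
    have h3 : Ico 1 R ∩ Ioi (0 : ℝ) = Ico 1 R := by
      refine inter_eq_left.2 fun x hx => ?_
      have : (1 : ℝ) ≤ x := hx.1
      exact lt_of_lt_of_le one_pos this
    rw [h3, integral_Ico_eq_integral_Ioc, ← intervalIntegral.integral_of_le hR1.le,
      integral_inv_of_pos one_pos (by positivity), div_one, hR, Real.log_exp]
  have e3 : ∫ _ in Ioo (-Real.pi) Real.pi, (1 : ℝ) = 2 * Real.pi := by
    rw [setIntegral_const, smul_eq_mul, mul_one, Real.volume_real_Ioo_of_le (by linarith [Real.pi_pos])]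
    ring
  rw [e2, e3]
  ring

private theorem fvm_key (hS : Stokes) {μ : ℂ → ℂ} (hμ : Bel 1 μ) {l : ℂ} (hl : 0 < l.re)
    (hinv : InvL l μ) {t : ℂ} (ht : ‖t‖ ≤ 1 / 2) :
    ∃ l' : ℂ, Complex.exp l' = nq (fun y => t * μ y) (Complex.exp l) ∧ 0 < l'.re ∧
      ‖(Real.pi : ℂ) * (l' - l) - t * ∫ ξ in ann l, μ ξ / ξ ^ 2‖ ≤
        ‖t‖ ^ 2 * (Real.pi * l.re) + ‖t‖ ^ 2 * (4 / 3 * Real.pi * l'.re) := by
  have hB : Bel ‖t‖ (fun y => t * μ y) :=
    ⟨measurable_const.mul hμ.meas, fun z => by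
      rw [norm_mul]
      exact mul_le_of_le_one_right (norm_nonneg _) (hμ.le z)⟩
  have hinv' : InvL l (fun y => t * μ y) := by
    filter_upwards [hinv] with ξ hξ
    rw [mul_assoc, hξ, mul_assoc]
  obtain ⟨l', a, b, hWD, hb, hexp, -, hl', hint, hle, h1, h2⟩ :=
    hS ‖t‖ (norm_nonneg t) (by linarith) _ hB l hl hinv'
  refine ⟨l', hexp, hl', ?_⟩
  set w := nq (fun y => t * μ y) with hw
  set ν := volume.restrict (ann l) with hν
  set g : ℂ → ℂ := fun ξ => a ξ / w ξ with hg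
  set h : ℂ → ℂ := fun ξ => ξ⁻¹ with hh
  have ham : AEStronglyMeasurable a ν :=
    ((hWD.l2a (Metric.closedBall 0 (Real.exp l.re)) (subset_univ _)
      (isCompact_closedBall _ _)).aestronglyMeasurable).mono_measure
      (Measure.restrict_mono (fvm_sub l) le_rfl)
  have hgm : AEStronglyMeasurable g ν := by
    have h3 : g = fun ξ => a ξ * (w ξ)⁻¹ := by
      funext ξ
      exact div_eq_mul_inv _ _
    rw [h3]
    exact ham.mul (measurable_inv.comp w.continuous.measurable).aestronglyMeasurable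
  have hg2 : Integrable (fun ξ => ‖g ξ‖ ^ 2) ν := by
    have h3 : (fun ξ => ‖g ξ‖ ^ 2) = fun ξ => ‖a ξ‖ ^ 2 / ‖w ξ‖ ^ 2 := by
      funext ξ
      rw [hg, norm_div, div_pow]
    rw [h3]
    exact hint
  have hhm : AEStronglyMeasurable h ν := measurable_inv.aestronglyMeasurable
  have hh2 : Integrable (fun ξ => ‖h ξ‖ ^ 2) ν := fvm_hint l
  have hgL : MemLp g 2 ν := (memLp_two_iff_integrable_sq_norm hgm).2 hg2
  have hhL : MemLp h 2 ν := (memLp_two_iff_integrable_sq_norm hhm).2 hh2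
  have hcm : AEStronglyMeasurable (fun ξ => conj (h ξ)) ν :=
    (Complex.continuous_conj.comp_aestronglyMeasurable hhm)
  have hcL : MemLp (fun ξ => conj (h ξ)) 2 ν := by
    refine (memLp_two_iff_integrable_sq_norm hcm).2 ?_
    simp only [Complex.norm_conj]
    exact hh2
  have hgc : Integrable (fun ξ => g ξ * conj (h ξ)) ν := hgL.integrable_mul hcL
  have hgh : Integrable (fun ξ => g ξ * h ξ) ν := hgL.integrable_mul hhL
  have hhh : Integrable (fun ξ => h ξ * h ξ) ν := hhL.integrable_mul hhL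
  -- the energy of the difference
  have hX2 : Integrable (fun ξ => ‖g ξ - h ξ‖ ^ 2) ν :=
    (memLp_two_iff_integrable_sq_norm (hgm.sub hhm)).1 (hgL.sub hhL)
  have hE : ∫ ξ, ‖g ξ - h ξ‖ ^ 2 ∂ν ≤ ‖t‖ ^ 2 * (8 / 3 * Real.pi * l'.re) := by
    have e1 : ∀ ξ, ‖g ξ - h ξ‖ ^ 2 = ‖g ξ‖ ^ 2 + ‖h ξ‖ ^ 2 - 2 * (g ξ * conj (h ξ)).re := by
      intro ξ
      rw [← Complex.normSq_eq_norm_sq, ← Complex.normSq_eq_norm_sq, ← Complex.normSq_eq_norm_sq,
        Complex.normSq_sub]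
    have hre : Integrable (fun ξ => (g ξ * conj (h ξ)).re) ν := hgc.re
    have e2 : ∫ ξ, ‖g ξ - h ξ‖ ^ 2 ∂ν = ∫ ξ, ‖g ξ‖ ^ 2 ∂ν + ∫ ξ, ‖h ξ‖ ^ 2 ∂ν -
        2 * (∫ ξ, g ξ * conj (h ξ) ∂ν).re := by
      have hsum : Integrable (fun ξ => ‖g ξ‖ ^ 2 + ‖h ξ‖ ^ 2) ν := hg2.add hh2
      have hre2 : Integrable (fun ξ => 2 * (g ξ * conj (h ξ)).re) ν := hre.const_mul 2
      simp only [e1]
      rw [integral_sub hsum hre2, integral_add hg2 hh2, integral_const_mul]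
      congr 2
      exact integral_re hgc
    have e3 : ∫ ξ, g ξ * conj (h ξ) ∂ν = Real.pi * (l' - l) + 2 * Real.pi * l.re := by
      rw [h2]
      refine integral_congr_ae (ae_of_all _ fun ξ => ?_)
      simp only [hg, hh, map_inv₀]
      rw [div_mul_eq_div_div, div_eq_mul_inv (a ξ / w ξ)]
    have e4 : ∫ ξ, ‖g ξ‖ ^ 2 ∂ν = ∫ ξ in ann l, ‖a ξ‖ ^ 2 / ‖w ξ‖ ^ 2 := by
      refine integral_congr_ae (ae_of_all _ fun ξ => ?_)
      simp only [hg, norm_div, div_pow]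
    rw [e2, e3, e4]
    have e5 : ∫ ξ, ‖h ξ‖ ^ 2 ∂ν = 2 * Real.pi * l.re := fvm_I0 l hl
    rw [e5]
    have e6 : ((Real.pi : ℂ) * (l' - l) + 2 * Real.pi * l.re).re =
        Real.pi * (l'.re - l.re) + 2 * Real.pi * l.re := by
      simp
    rw [e6]
    set S := ∫ ξ in ann l, ‖a ξ‖ ^ 2 / ‖w ξ‖ ^ 2 with hSS
    have ht0 := norm_nonneg t
    have hk : 3 / 4 ≤ 1 - ‖t‖ ^ 2 := by nlinarith
    have hpi := Real.pi_pos
    have hSle : S ≤ 2 * Real.pi * l'.re / (1 - ‖t‖ ^ 2) := by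
      rw [le_div_iff₀ (by linarith)]
      linarith
    have h5 : 2 * Real.pi * l'.re / (1 - ‖t‖ ^ 2) ≤
        2 * Real.pi * l'.re + ‖t‖ ^ 2 * (8 / 3 * Real.pi * l'.re) := by
      rw [div_le_iff₀ (by linarith)]
      have h6 : 0 ≤ Real.pi * l'.re := by positivity
      have h7 : 0 ≤ ‖t‖ ^ 2 := by positivity
      have h8 : ‖t‖ ^ 2 ≤ 1 / 4 := by nlinarith
      nlinarith [mul_nonneg h6 h7, mul_nonneg (mul_nonneg h6 h7) (sub_nonneg.2 h8)]
    linarith
  -- the difference of the integrals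
  have hbd : ∀ F : ℂ → ℂ, Integrable F ν → Integrable (fun ξ => (t * μ ξ) * F ξ) ν := by
    intro F hF
    exact hF.bdd_mul (c := ‖t‖) hB.meas.aestronglyMeasurable (ae_of_all _ hB.le)
  have e7 : (Real.pi : ℂ) * (l' - l) = ∫ ξ, (t * μ ξ) * (g ξ * h ξ) ∂ν := by
    rw [h1]
    refine integral_congr_ae (ae_of_all _ fun ξ => ?_)
    simp only [hg, hh, hb]
    rw [div_mul_eq_div_div, div_eq_mul_inv (t * μ ξ * a ξ / w ξ), mul_div_assoc, mul_assoc]
  have e8 : t * ∫ ξ in ann l, μ ξ / ξ ^ 2 = ∫ ξ, (t * μ ξ) * (h ξ * h ξ) ∂ν := by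
    rw [← integral_const_mul]
    refine integral_congr_ae (ae_of_all _ fun ξ => ?_)
    simp only [hh]
    rw [div_eq_mul_inv, ← inv_pow, pow_two, mul_assoc]
  rw [e7, e8, ← integral_sub (hbd _ hgh) (hbd _ hhh)]
  have hq : Integrable (fun ξ => ‖t‖ ^ 2 / 2 * ‖h ξ‖ ^ 2 + 1 / 2 * ‖g ξ - h ξ‖ ^ 2) ν :=
    (hh2.const_mul _).add (hX2.const_mul _)
  refine (norm_integral_le_of_norm_le hq (ae_of_all _ fun ξ => ?_)).trans ?_
  · have e9 : t * μ ξ * (g ξ * h ξ) - t * μ ξ * (h ξ * h ξ) =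
        (t * μ ξ * h ξ) * (g ξ - h ξ) := by ring
    rw [e9, norm_mul]
    have e10 : ‖t * μ ξ * h ξ‖ ≤ ‖t‖ * ‖h ξ‖ := by
      rw [norm_mul]
      exact mul_le_mul_of_nonneg_right (hB.le ξ) (norm_nonneg _)
    have e11 : ‖t * μ ξ * h ξ‖ * ‖g ξ - h ξ‖ ≤ ‖t‖ * ‖h ξ‖ * ‖g ξ - h ξ‖ :=
      mul_le_mul_of_nonneg_right e10 (norm_nonneg _)
    nlinarith [sq_nonneg (‖t‖ * ‖h ξ‖ - ‖g ξ - h ξ‖)]
  · rw [integral_add (hh2.const_mul _) (hX2.const_mul _), integral_const_mul, integral_const_mul]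
    have e5 : ∫ ξ, ‖h ξ‖ ^ 2 ∂ν = 2 * Real.pi * l.re := fvm_I0 l hl
    rw [e5]
    linarith

/-- FVM.  First variation of the multiplier. -/
theorem pFVM : StFVM := by
  intro hS hN _ μ hμ l hl hinv
  obtain ⟨C, hC⟩ := hN ‖Complex.exp l‖
  set c : ℂ := (Real.pi : ℂ)⁻¹ * ∫ ξ in ann l, μ ξ / ξ ^ 2 with hc
  have hpi := Real.pi_pos
  have hpi' : (Real.pi : ℂ) ≠ 0 := by exact_mod_cast hpi.ne'
  have hex : ∀ t : ℂ, ∃ l' : ℂ, ‖t‖ ≤ 1 / 2 →
      Complex.exp l' = nq (fun y => t * μ y) (Complex.exp l) ∧ 0 < l'.re ∧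
      ‖(Real.pi : ℂ) * (l' - l) - t * ∫ ξ in ann l, μ ξ / ξ ^ 2‖ ≤
        ‖t‖ ^ 2 * (Real.pi * l.re) + ‖t‖ ^ 2 * (4 / 3 * Real.pi * l'.re) := by
    intro t
    by_cases ht : ‖t‖ ≤ 1 / 2
    · obtain ⟨l', h⟩ := fvm_key hS hμ hl hinv ht
      exact ⟨l', fun _ => h⟩
    · exact ⟨0, fun h => absurd h ht⟩
  choose L hL using hex
  set M : ℝ := ‖Complex.exp l‖ + |C| with hM
  have hre : ∀ t : ℂ, ‖t‖ ≤ 1 / 2 → (L t).re ≤ M := by
    intro t ht
    obtain ⟨h1, -, -⟩ := hL t ht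
    have hB : Bel ‖t‖ (fun y => t * μ y) :=
      ⟨measurable_const.mul hμ.meas, fun z => by
        rw [norm_mul]
        exact mul_le_of_le_one_right (norm_nonneg _) (hμ.le z)⟩
    have h2 := hC ‖t‖ (norm_nonneg t) ht _ hB (Complex.exp l) le_rfl
    rw [← h1] at h2
    have h3 : ‖Complex.exp (L t)‖ ≤ ‖Complex.exp l‖ + C * ‖t‖ := by
      have := norm_sub_norm_le (Complex.exp (L t)) (Complex.exp l)
      linarith
    have h4 : C * ‖t‖ ≤ |C| := by
      calc C * ‖t‖ ≤ |C| * ‖t‖ := mul_le_mul_of_nonneg_right (le_abs_self C) (norm_nonneg t)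
        _ ≤ |C| * 1 := mul_le_mul_of_nonneg_left (by linarith) (abs_nonneg C)
        _ = |C| := mul_one _
    have h5 : (L t).re ≤ ‖Complex.exp (L t)‖ := by
      rw [Complex.norm_exp]
      linarith [Real.add_one_le_exp (L t).re]
    linarith
  have hM0 : 0 ≤ M := by positivity
  set K : ℝ := l.re + 4 / 3 * M with hK
  have hK0 : 0 ≤ K := by positivity
  have hest : ∀ t : ℂ, ‖t‖ ≤ 1 / 2 → ‖L t - l - t * c‖ ≤ K * ‖t‖ ^ 2 := by
    intro t ht
    obtain ⟨-, -, h3⟩ := hL t ht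
    have e1 : (Real.pi : ℂ) * (L t - l) - t * ∫ ξ in ann l, μ ξ / ξ ^ 2 =
        (Real.pi : ℂ) * (L t - l - t * c) := by
      rw [hc]
      field_simp
    rw [e1, norm_mul, Complex.norm_real, Real.norm_of_nonneg hpi.le] at h3
    have h4 := hre t ht
    have h5 : Real.pi * ‖L t - l - t * c‖ ≤ Real.pi * (K * ‖t‖ ^ 2) := by
      refine h3.trans ?_
      rw [hK]
      have h6 : 0 ≤ Real.pi * ‖t‖ ^ 2 := by positivity
      nlinarith [mul_nonneg h6 (sub_nonneg.2 h4)]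
    exact le_of_mul_le_mul_left h5 hpi
  have h0 : L 0 = l := by
    have h1 := hest 0 (by simp)
    simp only [norm_zero, zero_mul, sub_zero] at h1
    have h2 : ‖L 0 - l‖ ≤ 0 := by simpa using h1
    exact sub_eq_zero.1 (norm_le_zero_iff.1 h2)
  have hball : ∀ᶠ t : ℂ in 𝓝 0, ‖t‖ ≤ 1 / 2 := by
    filter_upwards [Metric.closedBall_mem_nhds (0 : ℂ) (show (0 : ℝ) < 1 / 2 by norm_num)] with t ht
    exact mem_closedBall_zero_iff.1 ht
  have hderL : HasDerivAt L c 0 := by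
    rw [hasDerivAt_iff_isLittleO]
    have hO : (fun t : ℂ => L t - L 0 - (t - 0) • c) =O[𝓝 0] fun t : ℂ => t ^ 2 := by
      refine Asymptotics.IsBigO.of_bound K ?_
      filter_upwards [hball] with t ht
      rw [h0, sub_zero, smul_eq_mul, norm_pow]
      exact hest t ht
    refine hO.trans_isLittleO ?_
    simp only [sub_zero]
    have h1 : (fun t : ℂ => t ^ 2) =o[𝓝 0] fun t : ℂ => t ^ 1 :=
      Asymptotics.isLittleO_pow_pow (by norm_num)
    simpa using h1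
  have hderE := hderL.cexp
  rw [h0] at hderE
  refine hderE.congr_of_eventuallyEq ?_
  filter_upwards [hball] with t ht
  exact (hL t ht).1.symm

end Pool.Agent.Helper98.QCM
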